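import Pool.Agent.H49.Katok.Final

/-!
# MP_a24f0f_an: a smooth diffeomorphism of the three-torus with a gap in its metric entropies
-/

open MeasureTheory
open Pool.Agent.H49.Katok

/-- There are a compact `C^∞` manifold `M` of dimension `3`, a `C^∞` diffeomorphism `f` of `M` and
a number `β` with `0 ≤ β < h_top(f)` such that no ergodic `f`-invariant probability measure has
metric entropy `β`. -/
theorem Pool.Agent.Results.MP_a24f0f_an.IntermediateEntropies.result :
    ∃ (X : ClosedManifold 3) (f : X.M → X.M) (β : ℝ), IsSmoothDiffeo X f ∧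
      0 ≤ β ∧ (β : EReal) < topEntropy X f ∧
        ∀ μ : Measure X.M, IsErgodicMeasure X f μ → ksEntropy f μ ≠ β := by
  obtain ⟨β, h0, h1, h2⟩ := exists_gap
  exact ⟨{ M := T3 }, F, β, ⟨lF.diffeo, fun _ => rfl⟩, h0, h1, fun μ hμ => h2 μ hμ.1 hμ.2⟩
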